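import Pool.Agent.W2helper16.RW.Stm

/-!
# Piece COL for `MP_e0aece_nt` (helper16): hypergraph colouring by Rosenfeld's counting argument
-/

set_option autoImplicit false

namespace Pool.Agent.W2helper65.RW

open Pool.Agent.W2helper16.RW Finset

/-- `f` is monochromatic under `c` -/
def Mono {V : Finset ℕ} {k : ℕ} (f : Finset ℕ) (c : ↥V → Fin (k + 1)) : Prop :=
  ∀ x y : ↥V, x.1 ∈ f → y.1 ∈ f → c x = c y

open Classical in
/-- proper colourings of `S`, zero off `T` -/
noncomputable def PS (V : Finset ℕ) (E : Finset (Finset ℕ)) (k : ℕ) (T S : Finset ℕ) :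
    Finset (↥V → Fin (k + 1)) :=
  Finset.univ.filter fun c => (∀ x : ↥V, x.1 ∉ T → c x = 0) ∧ ∀ f ∈ E, f ⊆ S → ¬ Mono f c

theorem mem_PS {V : Finset ℕ} {E : Finset (Finset ℕ)} {k : ℕ} {T S : Finset ℕ}
    {c : ↥V → Fin (k + 1)} : c ∈ PS V E k T S ↔
      (∀ x : ↥V, x.1 ∉ T → c x = 0) ∧ ∀ f ∈ E, f ⊆ S → ¬ Mono f c := by
  classical
  simp [PS]

variable (V : Finset ℕ) (E : Finset (Finset ℕ)) (k : ℕ)

theorem card_ext (S : Finset ℕ) (v : ℕ) (hv : v ∈ V) (hvS : v ∉ S) :
    (k + 1) * (PS V E k S S).card ≤ (PS V E k (insert v S) S).card := by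
  classical
  have h1 : ((Finset.univ : Finset (Fin (k + 1))) ×ˢ PS V E k S S).card
      = (k + 1) * (PS V E k S S).card := by
    rw [card_product, card_univ, Fintype.card_fin]
  rw [← h1]
  refine Finset.card_le_card_of_injOn
    (fun a => Function.update a.2 (⟨v, hv⟩ : ↥V) a.1) ?_ ?_
  · rintro ⟨a, c⟩ hac
    simp only [coe_product, coe_univ, Set.mem_prod, Set.mem_univ, true_and, mem_coe] at hac
    rw [mem_PS] at hac
    rw [mem_coe, mem_PS]
    refine ⟨?_, ?_⟩
    · intro x hx
      rw [mem_insert, not_or] at hx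
      have hne : x ≠ (⟨v, hv⟩ : ↥V) := by
        rintro rfl
        exact hx.1 rfl
      simp only
      rw [Function.update_of_ne hne]
      exact hac.1 x hx.2
    · intro f hf hfS hm
      refine hac.2 f hf hfS ?_
      intro x y hx hy
      have hne : ∀ z : ↥V, z.1 ∈ f → z ≠ (⟨v, hv⟩ : ↥V) := by
        rintro z hz rfl
        exact hvS (hfS hz)
      have := hm x y hx hy
      simp only at this
      rwa [Function.update_of_ne (hne x hx), Function.update_of_ne (hne y hy)] at this
  · rintro ⟨a, c⟩ hac ⟨b, d⟩ hbd h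
    simp only [coe_product, coe_univ, Set.mem_prod, Set.mem_univ, true_and, mem_coe] at hac hbd
    rw [mem_PS] at hac hbd
    simp only at h
    have h2 : a = b := by
      have := congrFun h ⟨v, hv⟩
      simpa using this
    have h3 : c = d := by
      funext x
      by_cases hx : x = (⟨v, hv⟩ : ↥V)
      · subst hx
        rw [hac.1 _ hvS, hbd.1 _ hvS]
      · have := congrFun h x
        rwa [Function.update_of_ne hx, Function.update_of_ne hx] at this
    rw [h2, h3]

open Classical in
theorem card_bad (hE : ∀ f ∈ E, 2 ≤ f.card ∧ f ⊆ V) (S : Finset ℕ) (v : ℕ)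
    (f : Finset ℕ) (w : ℕ) (hvf : v ∈ f) (hf : f ∈ E)
    (hfS : f ⊆ insert v S) (hw : w ∈ f) (hwv : w ≠ v) :
    ((PS V E k (insert v S) S).filter (fun c => Mono f c)).card
      ≤ (PS V E k (S \ f.erase w) (S \ f.erase w)).card := by
  have hwS : w ∈ S := by
    have := hfS hw
    rw [mem_insert] at this
    exact this.resolve_left hwv
  have hwS' : w ∈ S \ f.erase w := by
    rw [mem_sdiff]
    exact ⟨hwS, by simp⟩
  have hwV : w ∈ V := (hE f hf).2 hw
  refine Finset.card_le_card_of_injOn
    (fun c x => if x.1 ∈ S \ f.erase w then c x else 0) ?_ ?_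
  · intro c hc
    rw [mem_coe, mem_filter, mem_PS] at hc
    rw [mem_coe, mem_PS]
    refine ⟨?_, ?_⟩
    · intro x hx
      simp only
      rw [if_neg hx]
    · intro g hg hgS hm
      refine hc.1.2 g hg (hgS.trans sdiff_subset) ?_
      intro x y hx hy
      have := hm x y hx hy
      simp only at this
      rwa [if_pos (hgS hx), if_pos (hgS hy)] at this
  · intro c hc d hd h
    rw [mem_coe, mem_filter, mem_PS] at hc hd
    have h' : ∀ x : ↥V, x.1 ∈ S \ f.erase w → c x = d x := by
      intro x hx
      have := congrFun h x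
      simp only at this
      rwa [if_pos hx, if_pos hx] at this
    funext x
    by_cases hx : x.1 ∈ S \ f.erase w
    · exact h' x hx
    · by_cases hxf : x.1 ∈ f
      · rw [hc.2 x ⟨w, hwV⟩ hxf hw, hd.2 x ⟨w, hwV⟩ hxf hw]
        exact h' _ hwS'
      · have hx2 : x.1 ∉ insert v S := by
          intro hcon
          rw [mem_insert] at hcon
          rcases hcon with h1 | h1
          · rw [h1] at hxf; exact hxf hvf
          · refine hx ?_
            rw [mem_sdiff]
            exact ⟨h1, fun h2 => hxf (mem_of_mem_erase h2)⟩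
        rw [hc.1.1 x hx2, hd.1.1 x hx2]

theorem iter (β : ℝ) (hβ : 0 < β) (n : ℕ)
    (ih : ∀ S ⊆ V, S.card < n → ∀ v ∈ V, v ∉ S →
      β * ((PS V E k S S).card : ℝ) ≤ (PS V E k (insert v S) (insert v S)).card) :
    ∀ (T S : Finset ℕ), S ⊆ V → S.card ≤ n → T ⊆ S →
      β ^ T.card * ((PS V E k (S \ T) (S \ T)).card : ℝ) ≤ (PS V E k S S).card := by
  classical
  intro T
  induction T using Finset.induction_on with
  | empty => intro S _ _ _; simp
  | insert a T ha ihT =>
    intro S hSV hSn hTS
    have haS : a ∈ S := hTS (mem_insert_self _ _)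
    have h1 := ihT (S.erase a) ((erase_subset _ _).trans hSV)
      (by have := card_erase_of_mem haS; omega)
      (by
        intro x hx
        rw [mem_erase]
        exact ⟨by rintro rfl; exact ha hx, hTS (mem_insert_of_mem hx)⟩)
    have h2 := ih (S.erase a) ((erase_subset _ _).trans hSV)
      (by have := card_erase_of_mem haS
          have := card_pos.2 ⟨a, haS⟩
          omega) a (hSV haS) (by simp)
    rw [insert_erase haS] at h2
    have h3 : S \ insert a T = S.erase a \ T := by
      ext x
      simp only [mem_sdiff, mem_insert, mem_erase]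
      tauto
    rw [h3, card_insert_of_notMem ha, pow_succ]
    calc β ^ T.card * β * ((PS V E k (S.erase a \ T) (S.erase a \ T)).card : ℝ)
        = β * (β ^ T.card * ((PS V E k (S.erase a \ T) (S.erase a \ T)).card : ℝ)) := by ring
      _ ≤ β * ((PS V E k (S.erase a) (S.erase a)).card : ℝ) := by gcongr
      _ ≤ _ := h2

theorem step (β : ℝ) (hβ : 0 < β) (hK : 2 * β ≤ ((k + 1 : ℕ) : ℝ))
    (hE : ∀ f ∈ E, 2 ≤ f.card ∧ f ⊆ V)
    (hd : ∀ v ∈ V, ∑ f ∈ E with v ∈ f, (β ^ (f.card - 1))⁻¹ ≤ 1) :
    ∀ n : ℕ, ∀ S ⊆ V, S.card < n → ∀ v ∈ V, v ∉ S →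
      β * ((PS V E k S S).card : ℝ) ≤ (PS V E k (insert v S) (insert v S)).card := by
  classical
  intro n
  induction n with
  | zero => intro S _ h; omega
  | succ n ih =>
    intro S hSV hSn v hv hvS
    have hit := iter V E k β hβ n ih
    set A := PS V E k (insert v S) S with hA
    set P := ((PS V E k S S).card : ℝ) with hP
    have hP0 : 0 ≤ P := Nat.cast_nonneg _
    have hAcard : ((k + 1 : ℕ) : ℝ) * P ≤ A.card := by
      have := card_ext V E k S v hv hvS
      rw [hP, ← Nat.cast_mul]
      exact_mod_cast this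
    have hsub : A ⊆ PS V E k (insert v S) (insert v S) ∪
        ((E.filter (fun f => v ∈ f)).filter (fun f => f ⊆ insert v S)).biUnion
          (fun f => A.filter (fun c => Mono f c)) := by
      intro c hc
      rw [mem_union]
      by_cases h : c ∈ PS V E k (insert v S) (insert v S)
      · exact Or.inl h
      · right
        rw [mem_biUnion]
        have hc' := hc
        rw [hA, mem_PS] at hc'
        rw [mem_PS] at h
        push Not at h
        obtain ⟨f, hf, hfS, hm⟩ := h hc'.1
        refine ⟨f, ?_, by rw [mem_filter]; exact ⟨hc, hm⟩⟩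
        rw [mem_filter, mem_filter]
        refine ⟨⟨hf, ?_⟩, hfS⟩
        by_contra hvf
        refine hc'.2 f hf ?_ hm
        intro x hx
        have := hfS hx
        rw [mem_insert] at this
        rcases this with h1 | h1
        · rw [h1] at hx; exact absurd hx hvf
        · exact h1
    have hB : ∀ f ∈ (E.filter (fun f => v ∈ f)).filter (fun f => f ⊆ insert v S),
        ((A.filter (fun c => Mono f c)).card : ℝ) ≤ β * (β ^ (f.card - 1))⁻¹ * P := by
      intro f hf
      rw [mem_filter, mem_filter] at hf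
      obtain ⟨⟨hfE, hvf⟩, hfS⟩ := hf
      obtain ⟨hf2, hfV⟩ := hE f hfE
      obtain ⟨w, hw, hwv⟩ := Finset.exists_mem_ne (by omega : 1 < f.card) v
      have h1 := card_bad V E k hE S v f w hvf hfE hfS hw hwv
      set T := (f.erase w).erase v with hT
      have hTc : T.card = f.card - 2 := by
        rw [hT, card_erase_of_mem (mem_erase.2 ⟨Ne.symm hwv, hvf⟩), card_erase_of_mem hw]
        omega
      have hTS : T ⊆ S := by
        intro x hx
        rw [hT, mem_erase, mem_erase] at hx
        have := hfS hx.2.2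
        rw [mem_insert] at this
        exact this.resolve_left hx.1
      have hST : S \ f.erase w = S \ T := by
        ext x
        simp only [hT, mem_sdiff, mem_erase]
        constructor
        · rintro ⟨h2, h3⟩
          exact ⟨h2, fun h4 => h3 h4.2⟩
        · rintro ⟨h2, h3⟩
          refine ⟨h2, fun h4 => h3 ⟨?_, h4⟩⟩
          rintro rfl
          exact hvS h2
      have h2 := hit T S hSV (by omega) hTS
      rw [hTc] at h2
      rw [hST] at h1
      have h1' : ((A.filter (fun c => Mono f c)).card : ℝ)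
          ≤ ((PS V E k (S \ T) (S \ T)).card : ℝ) := by exact_mod_cast h1
      have hpow : β ^ (f.card - 1) = β ^ (f.card - 2) * β := by
        rw [← pow_succ]; congr 1; omega
      rw [hpow, mul_inv]
      have hbp : 0 < β ^ (f.card - 2) := by positivity
      have h3 : ((PS V E k (S \ T) (S \ T)).card : ℝ) ≤ (β ^ (f.card - 2))⁻¹ * P := by
        rw [inv_mul_eq_div, le_div_iff₀ hbp, mul_comm]
        exact h2
      calc _ ≤ ((PS V E k (S \ T) (S \ T)).card : ℝ) := h1'
        _ ≤ (β ^ (f.card - 2))⁻¹ * P := h3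
        _ = β * ((β ^ (f.card - 2))⁻¹ * β⁻¹) * P := by field_simp
    have hcard : (A.card : ℝ) ≤ (PS V E k (insert v S) (insert v S)).card + β * P := by
      have h1 : A.card ≤ (PS V E k (insert v S) (insert v S)).card +
          ∑ f ∈ (E.filter (fun f => v ∈ f)).filter (fun f => f ⊆ insert v S),
            (A.filter (fun c => Mono f c)).card := by
        refine (card_le_card hsub).trans ((card_union_le _ _).trans ?_)
        exact Nat.add_le_add_left card_biUnion_le _
      have h2 : (A.card : ℝ) ≤ (PS V E k (insert v S) (insert v S)).card +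
          ∑ f ∈ (E.filter (fun f => v ∈ f)).filter (fun f => f ⊆ insert v S),
            ((A.filter (fun c => Mono f c)).card : ℝ) := by exact_mod_cast h1
      refine h2.trans ?_
      refine add_le_add le_rfl ?_
      calc ∑ f ∈ (E.filter (fun f => v ∈ f)).filter (fun f => f ⊆ insert v S),
            ((A.filter (fun c => Mono f c)).card : ℝ)
          ≤ ∑ f ∈ (E.filter (fun f => v ∈ f)).filter (fun f => f ⊆ insert v S),
            β * (β ^ (f.card - 1))⁻¹ * P := Finset.sum_le_sum hB
        _ ≤ ∑ f ∈ E.filter (fun f => v ∈ f), β * (β ^ (f.card - 1))⁻¹ * P := by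
            refine Finset.sum_le_sum_of_subset_of_nonneg (filter_subset _ _) fun f _ _ => ?_
            positivity
        _ = β * (∑ f ∈ E with v ∈ f, (β ^ (f.card - 1))⁻¹) * P := by
            rw [Finset.mul_sum, Finset.sum_mul]
        _ ≤ β * 1 * P := by
            have := hd v hv
            gcongr
        _ = β * P := by ring
    nlinarith

theorem col : COL := by
  classical
  intro V E K β hβ hK hE hd
  obtain ⟨k, rfl⟩ : ∃ k, K = k + 1 := by
    refine ⟨K - 1, ?_⟩
    have : (0 : ℝ) < K := by linarith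
    have : 0 < K := by exact_mod_cast this
    omega
  have hst := step V E k β hβ hK hE hd (V.card + 1)
  have hit := iter V E k β hβ (V.card + 1) hst V V subset_rfl (by omega) subset_rfl
  have h0 : 0 < (PS V E k (V \ V) (V \ V)).card := by
    refine card_pos.2 ⟨fun _ => 0, ?_⟩
    rw [mem_PS]
    refine ⟨fun _ _ => rfl, ?_⟩
    intro f hf hfS _
    rw [sdiff_self] at hfS
    have h1 := subset_empty.1 hfS
    have := (hE f hf).1
    rw [h1, card_empty] at this
    omega
  have h1 : (0 : ℝ) < (PS V E k V V).card := by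
    refine lt_of_lt_of_le ?_ hit
    have : (0 : ℝ) < (PS V E k (V \ V) (V \ V)).card := by exact_mod_cast h0
    positivity
  have h2 : 0 < (PS V E k V V).card := by exact_mod_cast h1
  obtain ⟨c, hc⟩ := card_pos.1 h2
  rw [mem_PS] at hc
  refine ⟨fun x => if h : x ∈ V then (c ⟨x, h⟩).1 else 0, ?_, ?_⟩
  · intro x
    simp only
    split_ifs with h
    · exact (c ⟨x, h⟩).2
    · omega
  · intro f hf
    have hfV := (hE f hf).2
    have h3 := hc.2 f hf hfV
    unfold Mono at h3
    push Not at h3
    obtain ⟨x, y, hx, hy, hne⟩ := h3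
    refine ⟨x.1, hx, y.1, hy, ?_⟩
    simp only [x.2, y.2, dif_pos]
    intro h4
    exact hne (Fin.ext h4)

end Pool.Agent.W2helper65.RW
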